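import Mathlib
import Pool.Agent.V11124.JacMain

/-!
# Bases of the Jacobian matroid of a pair of graphs

Over every field of characteristic zero (and over every field of sufficiently large
characteristic), a pair `(G, H)` of graphs without isolated vertices on at least three vertices
each has the basis property exactly when `G` and `H` are vertex-disjoint unions of odd cycles.

Idea of the proof.  Write `v_{ik} = x_{ik} u_{ik}`.  For two odd cycles of lengths `p ≤ q` take
`x_{ik} = ω^{c_i k}` with `ω = exp (2 π i / q)` and integers `c_i` whose cyclic differences `d_i`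
satisfy `0 < 2 d_i < q` and add up to `q`.  With the cyclic shift `S` in `k` the kernel equations
read `(ω^{d_i} - S) u_i = (1 - ω^{d_i} S) u_{i+1}`, so `∏ (ω^{d_i} - S) - ∏ (1 - ω^{d_i} S)`
annihilates every `u_i`.  This polynomial in `S` has no root among the `q`-th roots of unity `z`,
because `|1 - ω^{d} z|^2 - |ω^{d} - z|^2 = 4 Im (ω^{d}) Im z` with `Im (ω^{d}) > 0`; hence it is
coprime to `S^q - 1` and the block is nonsingular.  Conversely a leaf, or a bipartite component,
produces an explicit kernel vector, and an edge count finishes the proof.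
-/

namespace Pool.Agent.Results.MP_305ad1_co.OddCycleUnions

open Pool.Agent.V11124.Jac

universe u

theorem result :
    (∀ (F : Type u) [Field F] [CharZero F] (n m : ℕ), 3 ≤ n → 3 ≤ m →
      ∀ (G : SimpleGraph (Fin n)) (H : SimpleGraph (Fin m)),
        (∀ a, ∃ b, G.Adj a b) → (∀ a, ∃ b, H.Adj a b) →
          (BasisProperty F G H ↔ IsOddCycleUnion G ∧ IsOddCycleUnion H)) ∧
    (∀ n m : ℕ, 3 ≤ n → 3 ≤ m → ∃ N : ℕ, ∀ (F : Type u) [Field F], N < ringChar F →
      ∀ (G : SimpleGraph (Fin n)) (H : SimpleGraph (Fin m)),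
        (∀ a, ∃ b, G.Adj a b) → (∀ a, ∃ b, H.Adj a b) →
          (BasisProperty F G H ↔ IsOddCycleUnion G ∧ IsOddCycleUnion H)) := by
  refine ⟨?_, ?_⟩
  · intro F _ _ n m hn hm G H hG hH
    obtain ⟨N, hN⟩ := main_iff.{u} n m hn hm
    exact hN F (Or.inl (CharP.ringChar_zero_iff_CharZero F |>.2 inferInstance)) G H hG hH
  · intro n m hn hm
    obtain ⟨N, hN⟩ := main_iff.{u} n m hn hm
    exact ⟨N, fun F _ hF G H hG hH => hN F (Or.inr hF) G H hG hH⟩

end Pool.Agent.Results.MP_305ad1_co.OddCycleUnions
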